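import Mathlib

/-!
# Normally convergent series of entire functions of several variables; Gaussian sums over lattices
-/

set_option autoImplicit false

open Set Metric Filter Topology

namespace Pool.Agent.U292.SA

section General

variable {E F : Type*} [NormedAddCommGroup E] [NormedSpace ℂ E]
  [NormedAddCommGroup F] [NormedSpace ℂ F]

theorem norm_fderiv_le_of_bound {f : E → F} {R M : ℝ} (hR : 0 < R)
    (hd : Differentiable ℂ f) (hM : ∀ z ∈ ball (0 : E) R, ‖f z‖ ≤ M) {w : E}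
    (hw : w ∈ ball (0 : E) (R / 2)) :
    ‖fderiv ℂ f w‖ ≤ 4 * M / R := by
  have hsub : ball w (R / 2) ⊆ ball (0 : E) R := by
    intro x hx
    rw [mem_ball] at *
    calc dist x 0 ≤ dist x w + dist w 0 := dist_triangle _ _ _
      _ < R := by linarith
  have hR2 : 0 < R / 2 := by linarith
  have hmaps : MapsTo f (ball w (R / 2)) (closedBall (f w) (2 * M)) := by
    intro x hx
    rw [mem_closedBall, dist_eq_norm]
    calc ‖f x - f w‖ ≤ ‖f x‖ + ‖f w‖ := norm_sub_le _ _
      _ ≤ 2 * M := by linarith [hM x (hsub hx), hM w (hsub (mem_ball_self hR2))]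
  have := Complex.norm_fderiv_le_div_of_mapsTo_ball (hd.differentiableOn) hmaps hR2
  calc _ ≤ _ := this
    _ = _ := by
      have : R ≠ 0 := by linarith
      field_simp; ring

theorem differentiable_tsum_of_bound {ι : Type*} [CompleteSpace F] {f : ι → E → F}
    (hf : ∀ i, Differentiable ℂ (f i))
    (hb : ∀ R : ℝ, 0 < R → ∃ u : ι → ℝ, Summable u ∧ ∀ i, ∀ x ∈ ball (0 : E) R, ‖f i x‖ ≤ u i) :
    Differentiable ℂ (fun x => ∑' i, f i x) := by
  intro x
  set R : ℝ := 2 * (‖x‖ + 1) with hR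
  have hR0 : 0 < R := by positivity
  obtain ⟨u, hu, hfu⟩ := hb R hR0
  have hx : x ∈ ball (0 : E) (R / 2) := by
    rw [mem_ball_zero_iff, hR]; linarith
  have hu' : Summable (fun i => 4 * u i / R) := (hu.mul_left 4).div_const R
  have hf0 : Summable (fun i => f i x) := by
    refine Summable.of_norm_bounded hu (fun i => hfu i x ?_)
    rw [mem_ball_zero_iff, hR]; linarith [norm_nonneg x]
  exact (hasFDerivAt_tsum_of_isPreconnected (f := f) (f' := fun i x => fderiv ℂ (f i) x) hu'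
    isOpen_ball (convex_ball (0 : E) (R / 2)).isPreconnected
    (fun i y _ => (hf i y).hasFDerivAt)
    (fun i y hy => norm_fderiv_le_of_bound hR0 (hf i) (hfu i) hy) hx hf0 hx).differentiableAt

end General

section Gauss

theorem exp_neg_le (c t : ℝ) (hc : 0 < c) (ht : 0 < t) (n : ℕ) :
    Real.exp (-(c * t ^ 2)) ≤ (n.factorial / c ^ n : ℝ) * t⁻¹ ^ (2 * n) := by
  have h0 : 0 ≤ c * t ^ 2 := by positivity
  have h1 := Real.pow_div_factorial_le_exp (c * t ^ 2) h0 n
  have h2 : 0 < (c * t ^ 2) ^ n / (n.factorial : ℝ) := by positivity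
  rw [Real.exp_neg]
  calc (Real.exp (c * t ^ 2))⁻¹ ≤ ((c * t ^ 2) ^ n / (n.factorial : ℝ))⁻¹ := inv_anti₀ h2 h1
    _ = (n.factorial / c ^ n : ℝ) * t⁻¹ ^ (2 * n) := by
      rw [inv_div, mul_pow, ← pow_mul, inv_pow]
      field_simp

variable {V : Type*} [NormedAddCommGroup V] [NormedSpace ℝ V] [FiniteDimensional ℝ V]

theorem summable_gauss (S : AddSubgroup V) (hS : DiscreteTopology S) {c : ℝ} (hc : 0 < c) :
    Summable (fun b : S => Real.exp (-(c * ‖(b : V)‖ ^ 2))) := by
  let L : Submodule ℤ V := S.toIntSubmodule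
  have : DiscreteTopology L := hS
  set n := Module.finrank ℤ L + 1 with hn
  have h1 : Summable fun z : L => ‖(z : V)‖⁻¹ ^ (2 * n) :=
    ZLattice.summable_norm_pow_inv L (2 * n) (by omega)
  have h1' : Summable fun z : S => ‖(z : V)‖⁻¹ ^ (2 * n) := h1
  have h2 := h1'.mul_left (n.factorial / c ^ n : ℝ)
  refine Summable.of_norm_bounded_eventually h2 ?_
  have h3 : {(0 : S)}ᶜ ∈ (cofinite : Filter S) := (Set.finite_singleton _).compl_mem_cofinite
  filter_upwards [h3] with b hb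
  rw [Real.norm_eq_abs, abs_of_pos (Real.exp_pos _)]
  apply exp_neg_le c _ hc
  rw [norm_pos_iff]
  intro h
  apply hb
  rw [Set.mem_singleton_iff]
  exact Subtype.ext h

omit [NormedSpace ℝ V] [FiniteDimensional ℝ V] in
theorem sq_shift (c : ℝ) (hc : 0 ≤ c) (b y : V) :
    Real.exp (-(c * ‖b + y‖ ^ 2)) ≤ Real.exp (c * ‖y‖ ^ 2) * Real.exp (-(c / 2 * ‖b‖ ^ 2)) := by
  rw [← Real.exp_add]
  apply Real.exp_le_exp.2
  have h1 : ‖b‖ ≤ ‖b + y‖ + ‖y‖ := by
    have := norm_sub_le (b + y) y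
    rwa [add_sub_cancel_right] at this
  have h2 : ‖b‖ ^ 2 ≤ 2 * ‖b + y‖ ^ 2 + 2 * ‖y‖ ^ 2 := by
    have h0 := norm_nonneg b
    nlinarith [sq_nonneg (‖b + y‖ - ‖y‖)]
  nlinarith

theorem summable_gauss_shift (S : AddSubgroup V) (hS : DiscreteTopology S) {c : ℝ} (hc : 0 < c)
    (y : V) : Summable (fun b : S => Real.exp (-(c * ‖(b : V) + y‖ ^ 2))) := by
  refine Summable.of_nonneg_of_le (fun b => (Real.exp_pos _).le) (fun b => sq_shift c hc.le _ y) ?_
  exact (summable_gauss S hS (half_pos hc)).mul_left _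

end Gauss

end Pool.Agent.U292.SA
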