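import Pool.Agent.W594.SYZ.TQ6
import Pool.Agent.U292.SA.Ser

/-!
# Positive line bundles on quotients of complex tori: a power is generated by global sections

Let `X = V / Γ` be the quotient of a complex torus by a finite group and `L` a line bundle on `X`
with positive definite Chern form `H`. For `x ∈ V` and `k ≥ 1` the Poincare series

`s(v) = ∑_γ e_γ(v)⁻ᵏ exp (k F(γ v) + k π H(γ v, x) - k π/2 H(x, x))`

of the coherent state at `x` is a section of `L^k`, and `s(x) ≠ 0` if `k` is large: the terms with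
`γ x = x` are equal, because the stabiliser of `x` acts trivially on the fibre over `x`, and the
others are smaller by the factors `exp (- k π/2 H(γ x - x, γ x - x))`.
-/

set_option autoImplicit false

open Set Metric Filter Topology

namespace Pool.Agent.U292.SA

open Pool.Agent.W594.SYZ2 Pool.Agent.W594.SYZ2.TQ

variable {V : Type*} [NormedAddCommGroup V] [NormedSpace ℂ V] [FiniteDimensional ℂ V]
  {Γ : Subgroup (V ≃ᵃ[ℂ] V)} {L : LineBundle Γ} {H : V → V → ℂ} {F : V → ℂ}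

/-- `L` is generated by its global sections. -/
def GloballyGenerated (L : LineBundle Γ) : Prop := ∀ v, ∃ s, L.IsSection s ∧ s v ≠ 0

/-- `L` is semiample: some power `L ^ m`, `m ≥ 1`, is generated by its global sections. -/
def Semiample (L : LineBundle Γ) : Prop := ∃ m : ℕ, 1 ≤ m ∧ GloballyGenerated (L.pow m)

theorem continuous_diag (hH : IsHermitian H) : Continuous fun v => (H v v).re := by
  have : FiniteDimensional ℝ V := FiniteDimensional.complexToReal V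
  let B : V →ₗ[ℝ] V →ₗ[ℝ] ℝ := LinearMap.mk₂ ℝ (fun x y => (H x y).re)
    (fun x x' y => by rw [hH.add_left, Complex.add_re])
    (fun c x y => by
      have : c • x = (c : ℂ) • x := (Complex.coe_smul c x).symm
      rw [this, hH.smul_left, Complex.re_ofReal_mul, smul_eq_mul])
    (fun x y y' => by rw [TQ.h_add_right hH, Complex.add_re])
    (fun c x y => by
      have : c • y = (c : ℂ) • y := (Complex.coe_smul c y).symm
      rw [this, TQ.h_smul_right hH, Complex.conj_ofReal, Complex.re_ofReal_mul, smul_eq_mul])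
  have h1 : (fun v => (H v v).re) = fun v => B v v := rfl
  rw [h1]
  let B' : V →L[ℝ] V →L[ℝ] ℝ := LinearMap.toContinuousLinearMap
    ((LinearMap.toContinuousLinearMap : (V →ₗ[ℝ] ℝ) ≃ₗ[ℝ] (V →L[ℝ] ℝ)).toLinearMap ∘ₗ B)
  have h2 : (fun v => B v v) = fun v => B' v v := rfl
  rw [h2]
  exact (B'.continuous).clm_apply continuous_id

/-- A positive definite form is bounded below. -/
theorem exists_lower (hH : IsHermitian H) (hp : IsPositiveForm H) :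
    ∃ c : ℝ, 0 < c ∧ ∀ v, c * ‖v‖ ^ 2 ≤ (H v v).re := by
  have : ProperSpace V := FiniteDimensional.proper ℂ V
  have hc := continuous_diag hH
  rcases (sphere (0 : V) 1).eq_empty_or_nonempty with he | hne
  · refine ⟨1, one_pos, fun v => ?_⟩
    have hv : v = 0 := by
      by_contra hv
      have h1 : ((‖v‖⁻¹ : ℝ) : ℂ) • v ∈ sphere (0 : V) 1 := by
        rw [mem_sphere_zero_iff_norm, norm_smul, Complex.norm_real, norm_inv, norm_norm,
          inv_mul_cancel₀ (norm_ne_zero_iff.2 hv)]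
      rw [he] at h1
      exact h1
    rw [hv, h_zero_left hH]
    simp
  · obtain ⟨u, hu, hmin⟩ := (isCompact_sphere (0 : V) 1).exists_isMinOn hne hc.continuousOn
    have hu0 : u ≠ 0 := by
      intro h
      rw [mem_sphere_zero_iff_norm, h, norm_zero] at hu
      exact zero_ne_one hu
    refine ⟨(H u u).re, hp u hu0, fun v => ?_⟩
    by_cases hv : v = 0
    · rw [hv, h_zero_left hH]
      simp
    have hn : 0 < ‖v‖ := norm_pos_iff.2 hv
    have h1 : ((‖v‖⁻¹ : ℝ) : ℂ) • v ∈ sphere (0 : V) 1 := by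
      rw [mem_sphere_zero_iff_norm, norm_smul, Complex.norm_real, norm_inv, norm_norm,
        inv_mul_cancel₀ hn.ne']
    have h2 : (H u u).re ≤ (H (((‖v‖⁻¹ : ℝ) : ℂ) • v) (((‖v‖⁻¹ : ℝ) : ℂ) • v)).re := hmin h1
    rw [h_diag_smul hH, Complex.norm_real, norm_inv, norm_norm, inv_pow] at h2
    rw [mul_comm]
    calc ‖v‖ ^ 2 * (H u u).re ≤ ‖v‖ ^ 2 * ((‖v‖ ^ 2)⁻¹ * (H v v).re) := by
          apply mul_le_mul_of_nonneg_left h2 (by positivity)
      _ = (H v v).re := by field_simp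

/-- The translation parts of the elements of `Γ`. -/
theorem summable_Gamma (hΓ : IsTorusQuotient Γ) {c : ℝ} (hc : 0 < c) :
    Summable (fun γ : Γ => Real.exp (-(c * ‖(γ : V ≃ᵃ[ℂ] V) 0‖ ^ 2))) := by
  have : FiniteDimensional ℝ V := FiniteDimensional.complexToReal V
  have hfin : Finite (Lin Γ) := finite_Lin hΓ
  have hex : ∀ A : Lin Γ, ∃ γ : Γ, (γ : V ≃ᵃ[ℂ] V).linear = (A : V ≃ₗ[ℂ] V) := by
    rintro ⟨A, γ, hγ, h⟩
    exact ⟨⟨γ, hγ⟩, h⟩
  choose g hg using hex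
  have hA : ∀ A : Lin Γ, Summable (fun b : latt Γ =>
      Real.exp (-(c * ‖(b : V) + ((g A : Γ) : V ≃ᵃ[ℂ] V) 0‖ ^ 2))) := by
    intro A
    exact summable_gauss_shift (latt Γ) hΓ.discrete hc (((g A : Γ) : V ≃ᵃ[ℂ] V) 0)
  have hG : Summable (fun p : Lin Γ × latt Γ =>
      Real.exp (-(c * ‖((p.2 : V)) + ((g p.1 : Γ) : V ≃ᵃ[ℂ] V) 0‖ ^ 2))) := by
    rw [summable_prod_of_nonneg (fun p => (Real.exp_pos _).le)]
    exact ⟨hA, Summable.of_finite⟩
  have hlin : ∀ γ : Γ, (γ : V ≃ᵃ[ℂ] V).linear ∈ Lin Γ := fun γ => ⟨γ, γ.2, rfl⟩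
  have hmem : ∀ γ : Γ, (γ : V ≃ᵃ[ℂ] V) 0 - ((g ⟨_, hlin γ⟩ : Γ) : V ≃ᵃ[ℂ] V) 0 ∈ latt Γ := by
    intro γ
    set δ := g ⟨_, hlin γ⟩ with hδ
    have h1 : (δ : V ≃ᵃ[ℂ] V).linear = (γ : V ≃ᵃ[ℂ] V).linear := hg _
    rw [mem_latt]
    have h2 : AffineEquiv.constVAdd ℂ V ((γ : V ≃ᵃ[ℂ] V) 0 - (δ : V ≃ᵃ[ℂ] V) 0)
        = (γ : V ≃ᵃ[ℂ] V) * (δ : V ≃ᵃ[ℂ] V)⁻¹ := by
      rw [eq_mul_inv_iff_mul_eq]
      ext v
      change ((γ : V ≃ᵃ[ℂ] V) 0 - (δ : V ≃ᵃ[ℂ] V) 0) + (δ : V ≃ᵃ[ℂ] V) v = (γ : V ≃ᵃ[ℂ] V) v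
      rw [act (δ : V ≃ᵃ[ℂ] V) v, act (γ : V ≃ᵃ[ℂ] V) v, h1]
      abel
    rw [h2]
    exact Γ.mul_mem γ.2 (Γ.inv_mem δ.2)
  let ι : Γ → Lin Γ × latt Γ := fun γ => (⟨_, hlin γ⟩, ⟨_, hmem γ⟩)
  have hι : Function.Injective ι := by
    intro γ γ' h
    have h1 : (γ : V ≃ᵃ[ℂ] V).linear = (γ' : V ≃ᵃ[ℂ] V).linear :=
      congrArg Subtype.val (congrArg Prod.fst h)
    have h2 : (γ : V ≃ᵃ[ℂ] V) 0 - ((g ⟨_, hlin γ⟩ : Γ) : V ≃ᵃ[ℂ] V) 0
        = (γ' : V ≃ᵃ[ℂ] V) 0 - ((g ⟨_, hlin γ'⟩ : Γ) : V ≃ᵃ[ℂ] V) 0 :=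
      congrArg Subtype.val (congrArg Prod.snd h)
    have h3 : (⟨_, hlin γ⟩ : Lin Γ) = ⟨_, hlin γ'⟩ := congrArg Prod.fst h
    rw [h3] at h2
    have h4 := sub_left_injective h2
    apply Subtype.ext
    ext v
    rw [act (γ : V ≃ᵃ[ℂ] V) v, act (γ' : V ≃ᵃ[ℂ] V) v, h1, h4]
  have h5 := hG.comp_injective hι
  refine h5.congr (fun γ => ?_)
  simp only [Function.comp_apply, ι, sub_add_cancel]

/-- The linear parts are bounded. -/
theorem exists_bound (hΓ : IsTorusQuotient Γ) :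
    ∃ M : ℝ, 0 ≤ M ∧ ∀ (γ : Γ) (v : V), ‖(γ : V ≃ᵃ[ℂ] V).linear v‖ ≤ M * ‖v‖ := by
  have hfin : Finite (Lin Γ) := finite_Lin hΓ
  have := Fintype.ofFinite (Lin Γ)
  let T : Lin Γ → (V →L[ℂ] V) := fun A => LinearMap.toContinuousLinearMap ((A : V ≃ₗ[ℂ] V) : V →ₗ[ℂ] V)
  refine ⟨∑ A, ‖T A‖, Finset.sum_nonneg fun _ _ => norm_nonneg _, fun γ v => ?_⟩
  have h1 : (γ : V ≃ᵃ[ℂ] V).linear v = T ⟨_, γ, γ.2, rfl⟩ v := rfl
  rw [h1]
  refine (ContinuousLinearMap.le_opNorm _ _).trans ?_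
  apply mul_le_mul_of_nonneg_right _ (norm_nonneg v)
  exact Finset.single_le_sum (f := fun A => ‖T A‖) (fun A _ => norm_nonneg _) (Finset.mem_univ _)

/-- The normalised coherent state at `x` in the `k`-th power: its value at the point `w`. -/
noncomputable def coh (H : V → V → ℂ) (k : ℕ) (x w : V) : ℂ :=
  Complex.exp (k * (Real.pi * H w x - Real.pi / 2 * H x x))

/-- The term of the Poincare series. -/
noncomputable def term (L : LineBundle Γ) (F : V → ℂ) (H : V → V → ℂ) (k : ℕ) (x : V) (γ : Γ)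
    (v : V) : ℂ :=
  (tw L F γ v ^ k)⁻¹ * coh H k x ((γ : V ≃ᵃ[ℂ] V) v)

omit [FiniteDimensional ℂ V] in
theorem norm_term (hH : IsHermitian H) (hF : IsPot L H F) (k : ℕ) (x : V) (γ : Γ) (v : V) :
    ‖term L F H k x γ v‖ = Real.exp (k * (Real.pi / 2 * (H v v).re))
      * Real.exp (-(k * (Real.pi / 2
        * (H ((γ : V ≃ᵃ[ℂ] V) v - x) ((γ : V ≃ᵃ[ℂ] V) v - x)).re))) := by
  have h1 : ‖tw L F γ v‖ = Real.exp (Real.pi / 2
      * ((H ((γ : V ≃ᵃ[ℂ] V) v) ((γ : V ≃ᵃ[ℂ] V) v)).re - (H v v).re)) := by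
    have h2 := tw_norm hF γ v
    have h3 : (Real.exp (Real.pi / 2
      * ((H ((γ : V ≃ᵃ[ℂ] V) v) ((γ : V ≃ᵃ[ℂ] V) v)).re - (H v v).re))) ^ 2 = Real.exp (Real.pi
      * ((H ((γ : V ≃ᵃ[ℂ] V) v) ((γ : V ≃ᵃ[ℂ] V) v)).re - (H v v).re)) := by
      rw [← Real.exp_nat_mul]
      congr 1
      push_cast
      ring
    rw [← h3] at h2
    exact (pow_left_inj₀ (norm_nonneg _) (Real.exp_pos _).le (by norm_num)).1 h2
  set w := (γ : V ≃ᵃ[ℂ] V) v with hw
  have h4 : (H (w - x) (w - x)).re = (H w w).re + (H x x).re - 2 * (H w x).re := by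
    have e1 := h_diag_add hH w ((-1 : ℂ) • x)
    have e2 : w + (-1 : ℂ) • x = w - x := by rw [neg_one_smul, sub_eq_add_neg]
    rw [e2, h_diag_smul hH, h_smul_right hH] at e1
    rw [e1]
    simp
    ring
  have hre : (k * (Real.pi * H w x - Real.pi / 2 * H x x) : ℂ).re
      = k * (Real.pi * (H w x).re - Real.pi / 2 * (H x x).re) := by
    have e3 : (k * (Real.pi * H w x - Real.pi / 2 * H x x) : ℂ)
        = ((k : ℝ) : ℂ) * (((Real.pi : ℝ) : ℂ) * H w x - ((Real.pi / 2 : ℝ) : ℂ) * H x x) := by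
      push_cast
      ring
    rw [e3, Complex.re_ofReal_mul, Complex.sub_re, Complex.re_ofReal_mul, Complex.re_ofReal_mul]
  rw [term, norm_mul, norm_inv, norm_pow, h1, coh, Complex.norm_exp, hre, ← Real.exp_nat_mul,
    ← Real.exp_neg, ← Real.exp_add, ← Real.exp_add, h4]
  congr 1
  ring

omit [FiniteDimensional ℂ V] in
theorem term_mul (k : ℕ) (x : V) (γ δ : Γ) (v : V) :
    term L F H k x γ ((δ : V ≃ᵃ[ℂ] V) v) = tw L F δ v ^ k * term L F H k x (γ * δ) v := by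
  have h1 : ((γ * δ : Γ) : V ≃ᵃ[ℂ] V) v = (γ : V ≃ᵃ[ℂ] V) ((δ : V ≃ᵃ[ℂ] V) v) := rfl
  have h2 := tw_ne_zero (L := L) (F := F) δ v
  have h3 := tw_ne_zero (L := L) (F := F) γ ((δ : V ≃ᵃ[ℂ] V) v)
  rw [term, term, tw_mul, h1, mul_pow]
  field_simp

omit [FiniteDimensional ℂ V] in
theorem term_stab (k : ℕ) (x : V) (γ : Γ) (h : (γ : V ≃ᵃ[ℂ] V) x = x) :
    term L F H k x γ x = coh H k x x := by
  rw [term, tw_stab γ x h, h, one_pow, inv_one, one_mul]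

end Pool.Agent.U292.SA
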