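import Pool.Agent.U292.SA.Free

/-!
# Positive line bundles on quotients of complex tori are semiample
-/

set_option autoImplicit false

open Set Metric Filter Topology

namespace Pool.Agent.U292.SA

open Pool.Agent.W594.SYZ2 Pool.Agent.W594.SYZ2.TQ

variable {V : Type*} [NormedAddCommGroup V] [NormedSpace ℂ V] [FiniteDimensional ℂ V]
  {Γ : Subgroup (V ≃ᵃ[ℂ] V)} {L : LineBundle Γ} {H : V → V → ℂ} {F : V → ℂ}

theorem act_diff (γ : Γ) : Differentiable ℂ (fun v => (γ : V ≃ᵃ[ℂ] V) v) := by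
  have : (fun v => (γ : V ≃ᵃ[ℂ] V) v) = fun v =>
      LinearMap.toContinuousLinearMap ((γ : V ≃ᵃ[ℂ] V).linear : V →ₗ[ℂ] V) v
        + (γ : V ≃ᵃ[ℂ] V) 0 := by
    funext v
    exact act _ v
  rw [this]
  exact (ContinuousLinearMap.differentiable _).add_const _

theorem term_diff (hH : IsHermitian H) (hF : IsPot L H F) (k : ℕ) (x : V) (γ : Γ) :
    Differentiable ℂ (term L F H k x γ) := by
  have h1 : Differentiable ℂ (fun v => (tw L F γ v ^ k)⁻¹) :=
    ((tw_holo hF.1 γ).pow k).inv (fun v => pow_ne_zero _ (tw_ne_zero γ v))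
  have h2 : Differentiable ℂ (fun w => H w x) := by
    have : (fun w => H w x) = fun w => LinearMap.toContinuousLinearMap (hl hH x) w := rfl
    rw [this]
    exact ContinuousLinearMap.differentiable _
  have h3 : Differentiable ℂ (fun w => coh H k x w) := by
    unfold coh
    exact (((h2.const_mul _).sub_const _).const_mul _).cexp
  exact h1.mul (h3.comp (act_diff γ))

/-- The bound for the terms on a ball. -/
theorem term_bound (hΓ : IsTorusQuotient Γ) (hH : IsHermitian H) (hF : IsPot L H F)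
    (hp : IsPositiveForm H) (k : ℕ) (hk : 1 ≤ k) (x : V) (R : ℝ) (hR : 0 < R) :
    ∃ u : Γ → ℝ, Summable u ∧ ∀ γ, ∀ v ∈ ball (0 : V) R, ‖term L F H k x γ v‖ ≤ u γ := by
  have : ProperSpace V := FiniteDimensional.proper ℂ V
  obtain ⟨c, hc, hlow⟩ := exists_lower hH hp
  obtain ⟨M, hM0, hM⟩ := exists_bound hΓ
  obtain ⟨B, hB⟩ := ((isCompact_closedBall (0 : V) R).image (continuous_diag hH)).bddAbove
  have hk0 : (0 : ℝ) < k := by exact_mod_cast hk
  set c' : ℝ := k * (Real.pi / 2 * c) with hc'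
  have hc'0 : 0 < c' := by positivity
  set D : ℝ := M * R + ‖x‖ with hD
  refine ⟨fun γ => Real.exp (k * (Real.pi / 2 * B)) * (Real.exp (c' * D ^ 2)
    * Real.exp (-(c' / 2 * ‖(γ : V ≃ᵃ[ℂ] V) 0‖ ^ 2))),
    ((summable_Gamma hΓ (half_pos hc'0)).mul_left _).mul_left _, fun γ v hv => ?_⟩
  rw [norm_term hH hF]
  have h1 : Real.exp (k * (Real.pi / 2 * (H v v).re)) ≤ Real.exp (k * (Real.pi / 2 * B)) := by
    apply Real.exp_le_exp.2
    apply mul_le_mul_of_nonneg_left _ hk0.le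
    apply mul_le_mul_of_nonneg_left _ (by positivity)
    exact hB ⟨v, ball_subset_closedBall hv, rfl⟩
  set y : V := (γ : V ≃ᵃ[ℂ] V).linear v - x with hy
  have h2 : (γ : V ≃ᵃ[ℂ] V) v - x = (γ : V ≃ᵃ[ℂ] V) 0 + y := by
    rw [act, hy]; abel
  have h3 : ‖y‖ ≤ D := by
    rw [mem_ball_zero_iff] at hv
    calc ‖y‖ ≤ ‖(γ : V ≃ᵃ[ℂ] V).linear v‖ + ‖x‖ := norm_sub_le _ _
      _ ≤ M * ‖v‖ + ‖x‖ := by linarith [hM γ v]
      _ ≤ D := by rw [hD]; nlinarith
  have h4 : Real.exp (-(k * (Real.pi / 2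
        * (H ((γ : V ≃ᵃ[ℂ] V) v - x) ((γ : V ≃ᵃ[ℂ] V) v - x)).re)))
      ≤ Real.exp (c' * D ^ 2) * Real.exp (-(c' / 2 * ‖(γ : V ≃ᵃ[ℂ] V) 0‖ ^ 2)) := by
    have h5 : Real.exp (-(k * (Real.pi / 2
        * (H ((γ : V ≃ᵃ[ℂ] V) v - x) ((γ : V ≃ᵃ[ℂ] V) v - x)).re)))
        ≤ Real.exp (-(c' * ‖(γ : V ≃ᵃ[ℂ] V) 0 + y‖ ^ 2)) := by
      apply Real.exp_le_exp.2
      rw [h2]
      have h6 := hlow ((γ : V ≃ᵃ[ℂ] V) 0 + y)
      have h7 : c' * ‖(γ : V ≃ᵃ[ℂ] V) 0 + y‖ ^ 2
          ≤ k * (Real.pi / 2 * (H ((γ : V ≃ᵃ[ℂ] V) 0 + y) ((γ : V ≃ᵃ[ℂ] V) 0 + y)).re) := by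
        rw [hc']
        have : k * (Real.pi / 2 * c) * ‖(γ : V ≃ᵃ[ℂ] V) 0 + y‖ ^ 2
            = k * (Real.pi / 2 * (c * ‖(γ : V ≃ᵃ[ℂ] V) 0 + y‖ ^ 2)) := by ring
        rw [this]
        apply mul_le_mul_of_nonneg_left _ hk0.le
        exact mul_le_mul_of_nonneg_left h6 (by positivity)
      linarith
    refine h5.trans ((sq_shift c' hc'0.le _ y).trans ?_)
    apply mul_le_mul_of_nonneg_right _ (Real.exp_pos _).le
    apply Real.exp_le_exp.2
    apply mul_le_mul_of_nonneg_left _ hc'0.le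
    exact pow_le_pow_left₀ (norm_nonneg y) h3 2
  exact mul_le_mul h1 h4 (Real.exp_pos _).le (Real.exp_pos _).le

/-- The Poincare series is a section. -/
theorem isSection_ser (hΓ : IsTorusQuotient Γ) (hH : IsHermitian H) (hF : IsPot L H F)
    (hp : IsPositiveForm H) (k : ℕ) (hk : 1 ≤ k) (x : V) :
    (L.pow k).IsSection (fun v => Complex.exp (k * F v) * ∑' γ, term L F H k x γ v) := by
  constructor
  · exact ((hF.1.const_mul _).cexp).mul (differentiable_tsum_of_bound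
      (fun γ => term_diff hH hF k x γ) (fun R hR => term_bound hΓ hH hF hp k hk x R hR))
  · intro δ v
    have h1 : ∑' γ, term L F H k x γ ((δ : V ≃ᵃ[ℂ] V) v)
        = tw L F δ v ^ k * ∑' γ, term L F H k x γ v := by
      simp_rw [term_mul]
      rw [tsum_mul_left]
      congr 1
      exact (Equiv.mulRight δ).tsum_eq (fun γ => term L F H k x γ v)
    rw [h1, tw, mul_pow, ← Complex.exp_nat_mul]
    change _ = L.e δ v ^ k * _
    have h2 : Complex.exp (k * F ((δ : V ≃ᵃ[ℂ] V) v)) * Complex.exp (k * (F v - F ((δ : V ≃ᵃ[ℂ] V) v)))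
        = Complex.exp (k * F v) := by
      rw [← Complex.exp_add]
      congr 1
      ring
    rw [← h2]
    ring

/-- The section does not vanish at `x` if `k` is large. -/
theorem exists_ne_zero (hΓ : IsTorusQuotient Γ) (hH : IsHermitian H) (hF : IsPot L H F)
    (hp : IsPositiveForm H) (x : V) :
    ∃ k : ℕ, 1 ≤ k ∧ ∑' γ, term L F H k x γ x ≠ 0 := by
  classical
  have hcoh : ∀ k : ℕ, coh H k x x ≠ 0 := fun k => Complex.exp_ne_zero _
  have hncoh : ∀ k : ℕ, ‖coh H k x x‖ = Real.exp (k * (Real.pi / 2 * (H x x).re)) := by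
    intro k
    have h1 := norm_term hH hF k x 1 x
    rw [term_stab k x 1 rfl] at h1
    rw [h1]
    have h2 : (((1 : Γ) : V ≃ᵃ[ℂ] V) x - x) = 0 := sub_self x
    rw [h2, h_zero_left hH]
    simp
  let f : ℕ → Γ → ℂ := fun k γ => term L F H k x γ x * (coh H k x x)⁻¹
  have hf : ∀ k γ, ‖f k γ‖ = Real.exp (-(k * (Real.pi / 2
        * (H ((γ : V ≃ᵃ[ℂ] V) x - x) ((γ : V ≃ᵃ[ℂ] V) x - x)).re))) := by
    intro k γ
    simp only [f]
    rw [norm_mul, norm_inv, norm_term hH hF, hncoh]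
    field_simp
  have hfs : ∀ k (γ : Γ), (γ : V ≃ᵃ[ℂ] V) x = x → f k γ = 1 := by
    intro k γ h
    simp only [f]
    rw [term_stab k x γ h, mul_inv_cancel₀ (hcoh k)]
  have hnn : ∀ w, 0 ≤ (H w w).re := by
    intro w
    by_cases hw : w = 0
    · rw [hw, h_zero_left hH]; simp
    · exact (hp w hw).le
  let g : Γ → ℂ := fun γ => if (γ : V ≃ᵃ[ℂ] V) x = x then 1 else 0
  obtain ⟨u, hu, hub⟩ := term_bound hΓ hH hF hp 1 le_rfl x (‖x‖ + 1) (by positivity)
  have hbound : Summable (fun γ => ‖f 1 γ‖) := by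
    refine Summable.of_nonneg_of_le (fun _ => norm_nonneg _) (fun γ => ?_)
      (hu.mul_right (‖(coh H 1 x x)⁻¹‖))
    simp only [f]
    rw [norm_mul]
    apply mul_le_mul_of_nonneg_right _ (norm_nonneg _)
    apply hub
    rw [mem_ball_zero_iff]
    linarith
  have hlim : Tendsto (fun k => ∑' γ, f k γ) atTop (𝓝 (∑' γ, g γ)) := by
    refine tendsto_tsum_of_dominated_convergence hbound (fun γ => ?_) ?_
    · simp only [g]
      split_ifs with h
      · refine tendsto_const_nhds.congr (fun k => ?_)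
        rw [hfs k γ h]
      · rw [tendsto_zero_iff_norm_tendsto_zero]
        have ha : 0 < Real.pi / 2
            * (H ((γ : V ≃ᵃ[ℂ] V) x - x) ((γ : V ≃ᵃ[ℂ] V) x - x)).re := by
          have := hp _ (sub_ne_zero.2 h)
          positivity
        have h1 : Tendsto (fun k : ℕ => (k : ℝ) * (Real.pi / 2
            * (H ((γ : V ≃ᵃ[ℂ] V) x - x) ((γ : V ≃ᵃ[ℂ] V) x - x)).re)) atTop atTop :=
          tendsto_natCast_atTop_atTop.atTop_mul_const ha
        have h2 := Real.tendsto_exp_neg_atTop_nhds_zero.comp h1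
        refine h2.congr (fun k => ?_)
        rw [hf]
        rfl
    · filter_upwards [eventually_ge_atTop 1] with k hk γ
      rw [hf, hf]
      apply Real.exp_le_exp.2
      have h1 : (1 : ℝ) ≤ k := by exact_mod_cast hk
      have h2 := hnn ((γ : V ≃ᵃ[ℂ] V) x - x)
      have h3 : 0 ≤ Real.pi / 2 * (H ((γ : V ≃ᵃ[ℂ] V) x - x) ((γ : V ≃ᵃ[ℂ] V) x - x)).re := by
        positivity
      push_cast
      nlinarith
  have hg : ∑' γ, g γ ≠ 0 := by
    let g' : Γ → ℝ := fun γ => if (γ : V ≃ᵃ[ℂ] V) x = x then 1 else 0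
    have h1 : ∑' γ, g γ = ((∑' γ, g' γ : ℝ) : ℂ) := by
      rw [Complex.ofReal_tsum]
      refine tsum_congr (fun γ => ?_)
      simp only [g, g']
      split_ifs <;> simp
    have h2 : Summable g' := by
      refine Summable.of_nonneg_of_le (fun γ => ?_) (fun γ => ?_) hbound
      · simp only [g']
        split_ifs <;> norm_num
      · simp only [g']
        split_ifs with h
        · rw [hfs 1 γ h, norm_one]
        · exact norm_nonneg _
    have h3 : g' 1 ≤ ∑' γ, g' γ := by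
      refine h2.le_tsum 1 (fun γ _ => ?_)
      simp only [g']
      split_ifs <;> norm_num
    have h4 : g' 1 = 1 := if_pos rfl
    rw [h1]
    have h5 : (0 : ℝ) < ∑' γ, g' γ := by linarith
    exact_mod_cast h5.ne'
  have hev := hlim.eventually_ne hg
  obtain ⟨k, hk1, hk2⟩ := (hev.and (eventually_ge_atTop 1)).exists
  refine ⟨k, hk2, fun h0 => hk1 ?_⟩
  simp only [f]
  rw [tsum_mul_right, h0, zero_mul]

omit [FiniteDimensional ℂ V] in
theorem isSection_pow {k j m : ℕ} (hm : k * j = m) {s : V → ℂ} (hs : (L.pow k).IsSection s) :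
    (L.pow m).IsSection (fun v => s v ^ j) := by
  refine ⟨hs.holo.pow j, fun γ v => ?_⟩
  rw [hs.eq γ v, mul_pow]
  change (L.e γ v ^ k) ^ j * _ = L.e γ v ^ m * _
  rw [← pow_mul, hm]

/-- **Positive line bundles on quotients of complex tori are semiample.** -/
theorem semiample_of_positive (hΓ : IsTorusQuotient Γ) (L : LineBundle Γ) (H : V → V → ℂ)
    (hc : IsChernForm L H) (hp : IsPositiveForm H) : Semiample L := by
  classical
  have : ProperSpace V := FiniteDimensional.proper ℂ V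
  obtain ⟨hH, F, hF1, hF2⟩ := hc
  have hF : IsPot L H F := ⟨hF1, hF2⟩
  have hpt : ∀ x : V, ∃ k : ℕ, 1 ≤ k ∧ ∃ s : V → ℂ, (L.pow k).IsSection s ∧ s x ≠ 0 := by
    intro x
    obtain ⟨k, hk, hne⟩ := exists_ne_zero hΓ hH hF hp x
    exact ⟨k, hk, _, isSection_ser hΓ hH hF hp k hk x, mul_ne_zero (Complex.exp_ne_zero _) hne⟩
  choose k hk s hs hsx using hpt
  obtain ⟨C, hC⟩ := TQ.cobounded (latt Γ) hΓ.span_top
  have hopen : ∀ x, IsOpen {v | s x v ≠ 0} := fun x =>
    isOpen_ne_fun (hs x).holo.continuous continuous_const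
  obtain ⟨t, ht⟩ := (isCompact_closedBall (0 : V) C).elim_finite_subcover
    (fun x => {v | s x v ≠ 0}) hopen (fun x _ => mem_iUnion.2 ⟨x, hsx x⟩)
  refine ⟨∏ x ∈ t, k x, Nat.one_le_iff_ne_zero.2 (Finset.prod_ne_zero_iff.2 fun x _ => by
    have := hk x
    omega), fun v => ?_⟩
  obtain ⟨b, hb, hbC⟩ := hC v
  have hbv : b + v ∈ closedBall (0 : V) C := by rwa [mem_closedBall_zero_iff]
  obtain ⟨x, hx, hxv⟩ := mem_iUnion₂.1 (ht hbv)
  obtain ⟨j, hj⟩ := Finset.dvd_prod_of_mem k hx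
  refine ⟨fun v => s x v ^ j, isSection_pow hj.symm (hs x), ?_⟩
  apply pow_ne_zero
  intro h0
  apply hxv
  have h1 := (hs x).eq ⟨_, hb⟩ v
  change s x (b + v) = _ at h1
  rw [h1, h0, mul_zero]

end Pool.Agent.U292.SA
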