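import Pool.Agent.W594.SYZ.TQ6

/-!
# Quotients `X = V / Γ` of complex tori with `H^1(X, O_X) = 0`: a power of a nef line bundle descends

This is the descent of the files `Pool.Agent.W594.SYZ.TQ4`-`TQ6` without the symplectic form: the
only hypothesis is that the linear parts of `Γ` have no common nonzero fixed vector, which is the
same as `H^1(X, O_X) = 0`. The elements of `Γ` which act trivially on the base need not be
translations any more.
-/

set_option autoImplicit false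

namespace Pool.Agent.U292.SA

open Pool.Agent.W594.SYZ2 Pool.Agent.W594.SYZ2.TQ

variable {V W : Type*} [NormedAddCommGroup V] [NormedSpace ℂ V] [FiniteDimensional ℂ V]
  [NormedAddCommGroup W] [NormedSpace ℂ W] [FiniteDimensional ℂ W]
  {Γ : Subgroup (V ≃ᵃ[ℂ] V)} {L : LineBundle Γ} {H : V → V → ℂ} {F : V → ℂ}

/-- `X = V / Γ` is a torus quotient with `H^1(X, O_X) = 0`: by Dolbeault's theorem `H^1(X, O_X)` is
the space of conjugate-linear functionals on `V` that are invariant under the linear parts of `Γ`. -/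
structure IsRegular (Γ : Subgroup (V ≃ᵃ[ℂ] V)) : Prop where
  torus : IsTorusQuotient Γ
  h01 : ∀ ℓ : V →ₛₗ[starRingEnd ℂ] ℂ, (∀ γ ∈ Γ, ∀ w, ℓ (γ.linear w) = ℓ w) → ℓ = 0

omit [FiniteDimensional ℂ V] in
/-- Invariant vectors vanish. -/
theorem inv_vec' (hΓ : IsRegular Γ) (x : V) (hx : ∀ γ ∈ Γ, γ.linear x = x) : x = 0 := by
  have := finite_Lin hΓ.torus
  have : Fintype (Lin Γ) := Fintype.ofFinite _
  by_contra hne
  obtain ⟨f, hf⟩ : ∃ f : Module.Dual ℂ V, f x ≠ 0 := by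
    by_contra hcon
    push Not at hcon
    exact hne ((Module.forall_dual_apply_eq_zero_iff ℂ x).1 hcon)
  let ℓ : V →ₛₗ[starRingEnd ℂ] ℂ :=
    { toFun := fun y => starRingEnd ℂ (∑ g : Lin Γ, f (g.1 y))
      map_add' := fun y z => by
        rw [← map_add, ← Finset.sum_add_distrib]
        congr 1
        exact Finset.sum_congr rfl fun g _ => by rw [map_add, map_add]
      map_smul' := fun c y => by
        rw [smul_eq_mul, ← map_mul, Finset.mul_sum]
        congr 1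
        exact Finset.sum_congr rfl fun g _ => by rw [map_smul, map_smul, smul_eq_mul] }
  have hℓ : ℓ = 0 := by
    apply hΓ.h01
    intro γ hγ w
    change starRingEnd ℂ (∑ g : Lin Γ, f (g.1 (γ.linear w))) = starRingEnd ℂ (∑ g : Lin Γ, f (g.1 w))
    congr 1
    let h : Lin Γ := ⟨γ.linear, γ, hγ, rfl⟩
    exact Fintype.sum_equiv (Equiv.mulRight h) _ _ (fun g => rfl)
  have h1 := LinearMap.congr_fun hℓ x
  change starRingEnd ℂ (∑ g : Lin Γ, f (g.1 x)) = 0 at h1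
  rw [map_eq_zero] at h1
  have h2 : ∀ g : Lin Γ, f (g.1 x) = f x := by
    rintro ⟨g, γ, hγ, rfl⟩
    exact congrArg f (hx γ hγ)
  rw [Finset.sum_congr rfl (fun g _ => h2 g), Finset.sum_const, nsmul_eq_mul, mul_eq_zero] at h1
  rcases h1 with h1 | h1
  · exact Fintype.card_ne_zero (α := Lin Γ) (by exact_mod_cast h1)
  · exact hf h1

theorem chi_pow' (hΓ : IsRegular Γ) (hH : IsHermitian H) (hF : IsPot L H F) {b : V}
    (hb : b ∈ latt Γ) (hbK : b ∈ ker hH) : chi L F b ^ Nat.card (Lin Γ) = 1 := by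
  have := finite_Lin hΓ.torus
  have : Fintype (Lin Γ) := Fintype.ofFinite _
  classical
  have hlin : ∀ g : Lin Γ, g.1 b ∈ latt Γ ∧ g.1 b ∈ ker hH ∧ chi L F (g.1 b) = chi L F b := by
    rintro ⟨g, γ, hγ, rfl⟩
    exact ⟨latt_inv γ hγ hb, ker_inv hH hF ⟨γ, hγ⟩ hbK, chi_inv hH hF ⟨γ, hγ⟩ hb hbK⟩
  have key : ∀ s : Finset (Lin Γ), (∑ g ∈ s, g.1 b) ∈ latt Γ ∧ (∑ g ∈ s, g.1 b) ∈ ker hH ∧
      chi L F (∑ g ∈ s, g.1 b) = chi L F b ^ s.card := by
    intro s
    induction s using Finset.induction_on with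
    | empty => exact ⟨by simp, by simp, by simp [chi_zero]⟩
    | insert g s hg ih =>
      rw [Finset.sum_insert hg, Finset.card_insert_of_notMem hg]
      obtain ⟨h1, h2, h3⟩ := hlin g
      refine ⟨(latt Γ).add_mem h1 ih.1, (ker hH).add_mem h2 ih.2.1, ?_⟩
      rw [chi_add hH hF h1 h2 ih.1 ih.2.1, h3, ih.2.2, pow_succ, mul_comm]
  have hzero : ∑ g : Lin Γ, g.1 b = 0 := by
    apply inv_vec' hΓ
    intro γ hγ
    rw [map_sum]
    let h : Lin Γ := ⟨γ.linear, γ, hγ, rfl⟩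
    refine Fintype.sum_equiv (Equiv.mulLeft h) _ _ ?_
    intro g
    rfl
  have h1 := (key Finset.univ).2.2
  rw [hzero, chi_zero, Finset.card_univ, ← Nat.card_eq_fintype_card] at h1
  exact h1.symm

/-- The key finiteness: the normalised factor is a root of unity at fixed points modulo `K`. -/
theorem tw_pow' (hΓ : IsRegular Γ) (hH : IsHermitian H) (hF : IsPot L H F) (γ : Γ)
    (v : V) (h : (γ : V ≃ᵃ[ℂ] V) v - v ∈ ker hH) :
    tw L F γ v ^ (Nat.card (Lin Γ) * Nat.card (Lin Γ)) = 1 := by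
  have := finite_Lin hΓ.torus
  have key : ∀ n : ℕ, ((γ ^ n : Γ) : V ≃ᵃ[ℂ] V) v - v ∈ ker hH ∧
      tw L F (γ ^ n) v = tw L F γ v ^ n := by
    intro n
    induction n with
    | zero =>
      constructor
      · rw [pow_zero]
        change v - v ∈ ker hH
        rw [sub_self]
        exact (ker hH).zero_mem
      · rw [pow_zero, pow_zero, tw_one]
    | succ n ih =>
      constructor
      · have h1 : ((γ ^ (n + 1) : Γ) : V ≃ᵃ[ℂ] V) v
            = (γ : V ≃ᵃ[ℂ] V) (((γ ^ n : Γ) : V ≃ᵃ[ℂ] V) v) := by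
          rw [pow_succ']
          rfl
        have h2 : ((γ ^ n : Γ) : V ≃ᵃ[ℂ] V) v = v + (((γ ^ n : Γ) : V ≃ᵃ[ℂ] V) v - v) := by abel
        rw [h1, h2, act_add, add_sub_right_comm]
        exact (ker hH).add_mem h (ker_inv hH hF γ ih.1)
      · have h2 : (γ : V ≃ᵃ[ℂ] V) v = v + ((γ : V ≃ᵃ[ℂ] V) v - v) := by abel
        rw [pow_succ, tw_mul, h2, tw_add_ker hH hF _ v h, ih.2, pow_succ]
  set N := Nat.card (Lin Γ) with hN
  have hlin : ∀ w, ((γ ^ N : Γ) : V ≃ᵃ[ℂ] V).linear w = w := by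
    let g : Lin Γ := ⟨(γ : V ≃ᵃ[ℂ] V).linear, γ, γ.2, rfl⟩
    have hg : ∀ n : ℕ, ((g ^ n : Lin Γ) : V ≃ₗ[ℂ] V) = ((γ ^ n : Γ) : V ≃ᵃ[ℂ] V).linear := by
      intro n
      have e1 : ((g ^ n : Lin Γ) : V ≃ₗ[ℂ] V) = (g : V ≃ₗ[ℂ] V) ^ n := rfl
      have e2 : ((γ ^ n : Γ) : V ≃ᵃ[ℂ] V) = (γ : V ≃ᵃ[ℂ] V) ^ n := rfl
      have e3 : ((γ : V ≃ᵃ[ℂ] V) ^ n).linear = AffineEquiv.linearHom ((γ : V ≃ᵃ[ℂ] V) ^ n) := rfl
      rw [e1, e2, e3, map_pow]
      rfl
    intro w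
    rw [← hg N, hN, pow_card_eq_one']
    rfl
  obtain ⟨hb, hγ⟩ := eq_tr (γ ^ N) hlin
  obtain ⟨h1, h2⟩ := key N
  set b := ((γ ^ N : Γ) : V ≃ᵃ[ℂ] V) 0 with hbdef
  have hbK : b ∈ ker hH := by
    have h3 : ((γ ^ N : Γ) : V ≃ᵃ[ℂ] V) v - v = b := by
      rw [act, hlin]
      abel
    rwa [h3] at h1
  rw [pow_mul, ← h2, hγ, tw_tr_ker hH hF hb hbK]
  exact chi_pow' hΓ hH hF hb hbK

/-- If `H = 0` then `L` is torsion. -/
theorem torsion_of_zero' (hΓ : IsRegular Γ) (hH : IsHermitian H) (hF : IsPot L H F)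
    (h0 : ∀ v w, H v w = 0) : ∃ m : ℕ, 1 ≤ m ∧ (L.pow m).IsTrivial := by
  have := finite_Lin hΓ.torus
  have hpos : 0 < Nat.card (Lin Γ) := Nat.card_pos
  set M := Nat.card (Lin Γ) * Nat.card (Lin Γ) with hM
  refine ⟨M, Nat.mul_pos hpos hpos, fun v => Complex.exp (M * F v), ⟨?_, ?_⟩, fun v =>
    Complex.exp_ne_zero _⟩
  · exact (hF.1.const_mul (M : ℂ)).cexp
  · intro γ v
    have h1 := tw_pow' hΓ hH hF γ v (fun w => h0 _ w)
    rw [← hM, tw, mul_pow, ← Complex.exp_nat_mul, mul_sub, Complex.exp_sub] at h1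
    have h2 := Complex.exp_ne_zero (M * F ((γ : V ≃ᵃ[ℂ] V) v))
    have h3 : L.e γ v ^ M * Complex.exp (M * F v)
        = Complex.exp (M * F ((γ : V ≃ᵃ[ℂ] V) v)) := by
      field_simp at h1
      exact h1
    exact h3.symm


end Pool.Agent.U292.SA
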