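import Pool.Agent.U292.SA.Gen
import Pool.Agent.U292.SA.Free2

/-!
# Descent of a power of a nef line bundle to a positive line bundle on a torus quotient
-/

set_option autoImplicit false

namespace Pool.Agent.U292.SA

open Pool.Agent.W594.SYZ2 Pool.Agent.W594.SYZ2.TQ

variable {V W : Type*} [NormedAddCommGroup V] [NormedSpace ℂ V] [FiniteDimensional ℂ V]
  [NormedAddCommGroup W] [NormedSpace ℂ W] [FiniteDimensional ℂ W]
  {Γ : Subgroup (V ≃ᵃ[ℂ] V)} {L : LineBundle Γ} {H : V → V → ℂ} {F : V → ℂ}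
  {π : V →ₗ[ℂ] W} {hH : IsHermitian H}

/-- The data of the situation: `K = ker π` is the kernel of `H`. -/
structure Sit (Γ : Subgroup (V ≃ᵃ[ℂ] V)) (L : LineBundle Γ) (H : V → V → ℂ) (F : V → ℂ)
    (π : V →ₗ[ℂ] W) (hH : IsHermitian H) : Prop where
  ps : IsRegular Γ
  pot : IsPot L H F
  nef : IsNefForm H
  surj : Function.Surjective π
  ker_iff : ∀ v, π v = 0 ↔ v ∈ ker hH

omit [FiniteDimensional ℂ W] in
theorem Sit.pres (S : Sit Γ L H F π hH) : ∀ γ ∈ Γ, ∀ v ∈ ker hH, γ.linear v ∈ ker hH :=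
  fun γ hγ _ hv => ker_inv hH S.pot ⟨γ, hγ⟩ hv

omit [FiniteDimensional ℂ W] in
/-- A multiple of a translation vector of `Del Γ π` comes from a translation vector of `Γ`. -/
theorem Sit.mem_latt (S : Sit Γ L H F π hH) (w : W) (hw : w ∈ latt (Del Γ π)) :
    ∃ b ∈ latt Γ, π b = (Nat.card (Lin Γ)) • w := by
  have := finite_Lin S.ps.torus
  obtain ⟨γ0, hγ0, h⟩ := hw
  let γ : Γ := ⟨γ0, hγ0⟩
  have h' : ∀ v, π ((γ : V ≃ᵃ[ℂ] V) v) = w + π v := fun v => (h v).symm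
  have key : ∀ n : ℕ, ∀ v, π (((γ ^ n : Γ) : V ≃ᵃ[ℂ] V) v) = n • w + π v := by
    intro n
    induction n with
    | zero => intro v; rw [pow_zero, zero_smul, zero_add]; rfl
    | succ n ih =>
      intro v
      have h1 : ((γ ^ (n + 1) : Γ) : V ≃ᵃ[ℂ] V) v
          = (γ : V ≃ᵃ[ℂ] V) (((γ ^ n : Γ) : V ≃ᵃ[ℂ] V) v) := by
        rw [pow_succ']
        rfl
      rw [h1, h', ih, succ_nsmul]
      abel
  set N := Nat.card (Lin Γ) with hN
  have hlin : ∀ w, ((γ ^ N : Γ) : V ≃ᵃ[ℂ] V).linear w = w := by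
    let g : Lin Γ := ⟨(γ : V ≃ᵃ[ℂ] V).linear, γ, γ.2, rfl⟩
    have hg : ∀ n : ℕ, ((g ^ n : Lin Γ) : V ≃ₗ[ℂ] V) = ((γ ^ n : Γ) : V ≃ᵃ[ℂ] V).linear := by
      intro n
      have e1 : ((g ^ n : Lin Γ) : V ≃ₗ[ℂ] V) = (g : V ≃ₗ[ℂ] V) ^ n := rfl
      have e2 : ((γ ^ n : Γ) : V ≃ᵃ[ℂ] V) = (γ : V ≃ᵃ[ℂ] V) ^ n := rfl
      have e3 : ((γ : V ≃ᵃ[ℂ] V) ^ n).linear = AffineEquiv.linearHom ((γ : V ≃ᵃ[ℂ] V) ^ n) := rfl
      rw [e1, e2, e3, map_pow]
      rfl
    intro w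
    rw [← hg N, hN, pow_card_eq_one']
    rfl
  obtain ⟨hb, hγ⟩ := eq_tr (γ ^ N) hlin
  refine ⟨_, hb, ?_⟩
  rw [key N 0, map_zero, add_zero]

omit [FiniteDimensional ℂ W] in
theorem Sit.latt_mem (b : V) (hb : b ∈ latt Γ) : π b ∈ latt (Del Γ π) := by
  refine ⟨_, hb, fun v => ?_⟩
  change π b + π v = π (b + v)
  rw [map_add]

theorem Sit.discrete (S : Sit Γ L H F π hH) : DiscreteTopology (latt (Del Γ π)) := by
  have : FiniteDimensional ℝ V := FiniteDimensional.complexToReal V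
  have : FiniteDimensional ℝ W := FiniteDimensional.complexToReal W
  obtain ⟨s, hs⟩ := π.exists_rightInverse_of_surjective (LinearMap.range_eq_top.2 S.surj)
  have hs' : ∀ w, π (s w) = w := fun w => LinearMap.congr_fun hs w
  obtain ⟨t, ht, hspan, hli⟩ := exists_linearIndependent ℝ (latt Γ : Set V)
  have : Finite t := hli.finite
  -- the functionals
  let E : t → W →ₗ[ℝ] ℝ := fun j =>
    { toFun := fun w => (H (s w) j).im
      map_add' := fun x y => by rw [map_add, hH.add_left, Complex.add_im]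
      map_smul' := fun c x => by
        have h1 : c • x = (c : ℂ) • x := (Complex.coe_smul c x).symm
        rw [h1, map_smul, hH.smul_left, Complex.im_ofReal_mul, smul_eq_mul, RingHom.id_apply] }
  have hE : ∀ (j : t) (v : V), E j (π v) = (H v j).im := by
    intro j v
    change (H (s (π v)) j).im = (H v j).im
    have h1 : s (π v) - v ∈ ker hH := by
      rw [← S.ker_iff, map_sub, hs', sub_self]
    have h2 := h1 j
    rw [h_sub_left hH, sub_eq_zero] at h2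
    rw [h2]
  have hinj : ∀ w, (∀ j, E j w = 0) → w = 0 := by
    intro w hw
    rw [← hs' w, S.ker_iff]
    have h1 : ∀ u : V, (H (s w) u).im = 0 := by
      intro u
      have hu : u ∈ Submodule.span ℝ t := by rw [hspan, S.ps.torus.span_top]; trivial
      induction hu using Submodule.span_induction with
      | mem x hx => exact hw ⟨x, hx⟩
      | zero => rw [h_zero_right hH, Complex.zero_im]
      | add x y _ _ hx hy => rw [h_add_right hH, Complex.add_im, hx, hy, add_zero]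
      | smul c x _ hx =>
        have h1 : c • x = (c : ℂ) • x := (Complex.coe_smul c x).symm
        rw [h1, h_smul_right hH, Complex.conj_ofReal, Complex.im_ofReal_mul, hx, mul_zero]
    intro u
    apply Complex.ext
    · have h2 := h1 (Complex.I • u)
      rw [h_smul_right hH] at h2
      simpa using h2
    · exact h1 u
  have := finite_Lin S.ps.torus
  have hNpos : (Nat.card (Lin Γ) : ℝ) ≠ 0 := by
    exact_mod_cast (Nat.card_pos (α := Lin Γ)).ne'
  have hint : ∀ w ∈ latt (Del Γ π), ∀ j, ∃ n : ℤ, (Nat.card (Lin Γ) : ℝ) * E j w = n := by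
    intro w hw j
    obtain ⟨b, hb, hbw⟩ := S.mem_latt w hw
    have h1 : (Nat.card (Lin Γ) : ℝ) * E j w = E j (π b) := by
      rw [hbw, map_nsmul, nsmul_eq_mul]
    rw [h1, hE]
    exact im_int hH S.pot hb (ht j.2)
  choose n hn using hint
  let f : latt (Del Γ π) → t → ℤ := fun w j => n w.1 w.2 j
  have hf : Continuous f := by
    refine continuous_pi fun j => ?_
    rw [Int.isClosedEmbedding_coe_real.isEmbedding.continuous_iff]
    have h1 : (Int.cast : ℤ → ℝ) ∘ (fun w : latt (Del Γ π) => f w j)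
        = fun w => (Nat.card (Lin Γ) : ℝ) * E j w.1 := by
      funext w
      exact (hn w.1 w.2 j).symm
    rw [h1]
    exact ((LinearMap.continuous_of_finiteDimensional (E j)).comp continuous_subtype_val).const_mul _
  refine DiscreteTopology.of_continuous_injective hf ?_
  intro w w' hww
  apply Subtype.ext
  rw [← sub_eq_zero]
  apply hinj
  intro j
  have h1 : f w j = f w' j := congrFun hww j
  rw [map_sub, sub_eq_zero]
  apply mul_left_cancel₀ hNpos
  rw [hn w.1 w.2 j, hn w'.1 w'.2 j]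
  exact_mod_cast h1

theorem Sit.base (S : Sit Γ L H F π hH) : IsTorusQuotient (Del Γ π) := by
  refine ⟨S.discrete, ?_, ?_⟩
  · have h1 : (π.restrictScalars ℝ) '' (latt Γ : Set V) ⊆ (latt (Del Γ π) : Set W) := by
      rintro _ ⟨b, hb, rfl⟩
      exact Sit.latt_mem b hb
    rw [eq_top_iff]
    refine le_trans ?_ (Submodule.span_mono h1)
    rw [Submodule.span_image, S.ps.torus.span_top, Submodule.map_top, top_le_iff,
      LinearMap.range_eq_top]
    exact S.surj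
  · obtain ⟨s, hs⟩ := π.exists_rightInverse_of_surjective (LinearMap.range_eq_top.2 S.surj)
    have hs' : ∀ w, π (s w) = w := fun w => LinearMap.congr_fun hs w
    have h1 := (S.ps.torus.finite_linear.image
      (fun A : V ≃ₗ[ℂ] V => π ∘ₗ (A : V →ₗ[ℂ] V) ∘ₗ s)).preimage
      (LinearEquiv.toLinearMap_injective (R := ℂ) (M := W) (M₂ := W)).injOn
    refine h1.subset ?_
    rintro B ⟨δ, ⟨γ, hγ, h⟩, rfl⟩
    refine ⟨γ.linear, ⟨γ, hγ, rfl⟩, ?_⟩
    ext w
    change π (γ.linear (s w)) = δ.linear w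
    have h2 := h (s w)
    rw [hs', act δ w, act γ (s w), map_add] at h2
    have h3 := h 0
    rw [map_zero] at h3
    rw [h3] at h2
    exact (add_right_cancel h2).symm

omit [FiniteDimensional ℂ W] in
/-- The powers of the normalised factor for two elements of `Γ` inducing the same transformation. -/
theorem Sit.well (S : Sit Γ L H F π hH) (γ γ' : Γ)
    (h : ∀ v, π ((γ : V ≃ᵃ[ℂ] V) v) = π ((γ' : V ≃ᵃ[ℂ] V) v)) (v v' : V)
    (hv : π v = π v') : tw L F γ v ^ ex Γ = tw L F γ' v' ^ ex Γ := by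
  have hK : v' - v ∈ ker hH := by rw [← S.ker_iff, map_sub, hv, sub_self]
  have h0 : tw L F γ' v' = tw L F γ' v := by
    have h1 : v' = v + (v' - v) := by abel
    rw [h1, tw_add_ker hH S.pot γ' v hK]
  rw [h0]
  -- `τ = γ⁻¹ γ'`
  have hpres : ∀ (γ : Γ) (u : V), π u = 0 → π ((γ : V ≃ᵃ[ℂ] V).linear u) = 0 := by
    intro γ u hu
    rw [S.ker_iff] at hu ⊢
    exact S.pres _ γ.2 u hu
  have hτ : ∀ u, π (((γ⁻¹ * γ' : Γ) : V ≃ᵃ[ℂ] V) u) = π u := by
    intro u
    have h1 : ((γ⁻¹ * γ' : Γ) : V ≃ᵃ[ℂ] V) u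
        = ((γ⁻¹ : Γ) : V ≃ᵃ[ℂ] V) ((γ' : V ≃ᵃ[ℂ] V) u) := rfl
    have h2 : (γ' : V ≃ᵃ[ℂ] V) u
        = (γ : V ≃ᵃ[ℂ] V) u + ((γ' : V ≃ᵃ[ℂ] V) u - (γ : V ≃ᵃ[ℂ] V) u) := by abel
    have h3 : ((γ⁻¹ : Γ) : V ≃ᵃ[ℂ] V) ((γ : V ≃ᵃ[ℂ] V) u) = u :=
      (γ : V ≃ᵃ[ℂ] V).symm_apply_apply u
    rw [h1, h2, act_add, h3, map_add, hpres, add_zero]
    rw [map_sub, h, sub_self]
  have hτK : ((γ⁻¹ * γ' : Γ) : V ≃ᵃ[ℂ] V) v - v ∈ ker hH := by
    rw [← S.ker_iff, map_sub, hτ, sub_self]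
  have h4 : γ' = γ * (γ⁻¹ * γ') := by group
  have h5 : tw L F γ' v = tw L F γ v * tw L F (γ⁻¹ * γ') v := by
    conv_lhs => rw [h4]
    rw [tw_mul]
    have h6 : ((γ⁻¹ * γ' : Γ) : V ≃ᵃ[ℂ] V) v = v + (((γ⁻¹ * γ' : Γ) : V ≃ᵃ[ℂ] V) v - v) := by abel
    rw [h6, tw_add_ker hH S.pot γ v hτK]
  rw [h5, mul_pow, ex, tw_pow' S.ps hH S.pot _ v hτK, mul_one]

omit [FiniteDimensional ℂ V] [FiniteDimensional ℂ W] in
theorem Sit.ex_pos (S : Sit Γ L H F π hH) : 1 ≤ ex Γ := by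
  have := finite_Lin S.ps.torus
  have hpos : 0 < Nat.card (Lin Γ) := Nat.card_pos
  exact Nat.mul_pos hpos hpos

/-- The line bundle on the base. -/
noncomputable def bun (S : Sit Γ L H F π hH) : LineBundle (Del Γ π) where
  e := fun δ w => tw L F (lift δ) (sec π w) ^ ex Γ
  holo := fun δ => by
    have h1 : Differentiable ℂ (fun w => sec π w) := by
      have : (fun w => sec π w) = LinearMap.toContinuousLinearMap (sec π) := rfl
      rw [this]
      exact ContinuousLinearMap.differentiable _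
    exact ((tw_holo S.pot.1 (lift δ)).comp h1).pow _
  ne_zero := fun δ w => pow_ne_zero _ (tw_ne_zero _ _)
  mul := fun δ δ' w => by
    rw [S.well (lift (δ * δ')) (lift δ * lift δ') (by
      intro v
      rw [← lift_spec]
      change (δ : W ≃ᵃ[ℂ] W) ((δ' : W ≃ᵃ[ℂ] W) (π v))
        = π ((lift δ : V ≃ᵃ[ℂ] V) ((lift δ' : V ≃ᵃ[ℂ] V) v))
      rw [lift_spec, lift_spec]) (sec π w) (sec π w) rfl, tw_mul, mul_pow]
    congr 1
    apply S.well _ _ (fun v => rfl)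
    rw [← lift_spec, sec_spec S.surj, sec_spec S.surj]
  stab := fun δ w h => by
    apply tw_pow' S.ps hH S.pot
    rw [← S.ker_iff, map_sub, ← lift_spec, sec_spec S.surj, h, sub_self]

theorem bun_e (S : Sit Γ L H F π hH) (γ : Γ) (δ : Del Γ π)
    (h : ∀ v, (δ : W ≃ᵃ[ℂ] W) (π v) = π ((γ : V ≃ᵃ[ℂ] V) v)) (v : V) :
    (bun S).e δ (π v) = tw L F γ v ^ ex Γ := by
  change tw L F (lift δ) (sec π (π v)) ^ ex Γ = _
  apply S.well
  · intro u
    rw [← lift_spec, h]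
  · rw [sec_spec S.surj]

theorem HA_chern (S : Sit Γ L H F π hH) : IsChernForm (bun S) (HA Γ H π) := by
  refine ⟨⟨?_, ?_, ?_⟩, fun _ => 0, differentiable_const _, ?_⟩
  · intro u v w
    simp only [HA]
    rw [map_add, hH.add_left, mul_add]
  · intro a v w
    simp only [HA]
    rw [map_smul, hH.smul_left]
    ring
  · intro v w
    simp only [HA]
    rw [map_mul, ← hH.symm, Complex.conj_natCast]
  · intro δ w
    have h1 : (H (sec π ((δ : W ≃ᵃ[ℂ] W) w)) (sec π ((δ : W ≃ᵃ[ℂ] W) w))).re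
        = (H ((lift δ : V ≃ᵃ[ℂ] V) (sec π w)) ((lift δ : V ≃ᵃ[ℂ] V) (sec π w))).re := by
      apply h_diag_congr hH
      rw [← S.ker_iff, map_sub, sec_spec S.surj, ← lift_spec, sec_spec S.surj, sub_self]
    have h2 : ∀ x y, (HA Γ H π x y).re = (ex Γ : ℝ) * (H (sec π x) (sec π y)).re := by
      intro x y
      have : ((ex Γ : ℕ) : ℂ) = ((ex Γ : ℝ) : ℂ) := by push_cast; rfl
      rw [HA, this, Complex.re_ofReal_mul]
    have h3 : ‖(bun S).e δ w‖ ^ 2 = (‖tw L F (lift δ) (sec π w)‖ ^ 2) ^ ex Γ := by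
      change ‖tw L F (lift δ) (sec π w) ^ ex Γ‖ ^ 2 = _
      rw [norm_pow, ← pow_mul, ← pow_mul, mul_comm]
    rw [h3, tw_norm S.pot, ← Real.exp_nat_mul, h2, h2, h1]
    congr 1
    simp only [Complex.zero_re]
    ring

theorem HA_pos (S : Sit Γ L H F π hH) : IsPositiveForm (HA Γ H π) := by
  intro w hw
  have h2 : (HA Γ H π w w).re = (ex Γ : ℝ) * (H (sec π w) (sec π w)).re := by
    have : ((ex Γ : ℕ) : ℂ) = ((ex Γ : ℝ) : ℂ) := by push_cast; rfl
    rw [HA, this, Complex.re_ofReal_mul]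
  rw [h2]
  have h3 : (0 : ℝ) < ex Γ := by exact_mod_cast S.ex_pos
  apply mul_pos h3
  apply lt_of_le_of_ne (S.nef _)
  intro h
  apply hw
  rw [← sec_spec S.surj w, S.ker_iff]
  exact fun u => h_isotropic hH S.nef _ h.symm u

theorem Sit.induces (S : Sit Γ L H F π hH) : Induces L (Del Γ π) π := by
  refine ⟨ex Γ, S.ex_pos, bun S, HA Γ H π, HA_chern S, HA_pos S,
    fun v => Complex.exp (-(ex Γ * F v)), (S.pot.1.const_mul (ex Γ : ℂ)).neg.cexp,
    fun v => Complex.exp_ne_zero _, ?_⟩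
  intro γ δ h v
  rw [bun_e S γ δ h v, tw, mul_pow, ← Complex.exp_nat_mul]
  change Complex.exp (-(ex Γ * F ((γ : V ≃ᵃ[ℂ] V) v))) * L.e γ v ^ ex Γ = _
  have h2 : Complex.exp (-(ex Γ * F ((γ : V ≃ᵃ[ℂ] V) v)))
      = Complex.exp (ex Γ * (F v - F ((γ : V ≃ᵃ[ℂ] V) v))) * Complex.exp (-(ex Γ * F v)) := by
    rw [← Complex.exp_add]
    congr 1
    ring
  rw [h2]
  ring


end Pool.Agent.U292.SA
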