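import Pool.Agent.U292.SA.Gen2
import Pool.Agent.TH128.SYZ.PsefConv

/-!
# Nef line bundles on quotients `X` of complex tori with `H^1(X, O_X) = 0` are semiample
-/

set_option autoImplicit false

namespace Pool.Agent.U292.SA

open Pool.Agent.W594.SYZ2 Pool.Agent.W594.SYZ2.TQ Pool.Agent.TH128.SYZ

variable {V W : Type*} [NormedAddCommGroup V] [NormedSpace ℂ V] [FiniteDimensional ℂ V]
  [NormedAddCommGroup W] [NormedSpace ℂ W] [FiniteDimensional ℂ W]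
  {Γ : Subgroup (V ≃ᵃ[ℂ] V)} {L : LineBundle Γ} {H : V → V → ℂ} {F : V → ℂ}
  {π : V →ₗ[ℂ] W} {hH : IsHermitian H}

/-- The pullback of a positive line bundle on a torus quotient is semiample. -/
theorem semiample_of_induces {Δ : Subgroup (W ≃ᵃ[ℂ] W)} (hΔ : IsTorusQuotient Δ)
    (hmaps : ∀ γ ∈ Γ, ∃ δ ∈ Δ, ∀ v, δ (π v) = π (γ v)) (hi : Induces L Δ π) : Semiample L := by
  obtain ⟨m, hm, A, HA, hcA, hpA, h, hh, hne, heq⟩ := hi
  obtain ⟨m', hm', hg⟩ := semiample_of_positive hΔ A HA hcA hpA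
  refine ⟨m * m', Nat.mul_pos hm hm', fun v => ?_⟩
  obtain ⟨t, ht, htv⟩ := hg (π v)
  have hπ : Differentiable ℂ (fun v => π v) := by
    have : (fun v => π v) = LinearMap.toContinuousLinearMap π := rfl
    rw [this]
    exact ContinuousLinearMap.differentiable _
  refine ⟨fun v => t (π v) * (h v ^ m')⁻¹, ⟨?_, fun γ v => ?_⟩,
    mul_ne_zero htv (inv_ne_zero (pow_ne_zero _ (hne v)))⟩
  · exact (ht.holo.comp hπ).mul ((hh.pow m').inv fun v => pow_ne_zero _ (hne v))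
  · obtain ⟨δ, hδ, hδγ⟩ := hmaps γ γ.2
    have h1 := heq γ ⟨δ, hδ⟩ hδγ v
    have h2 := ht.eq ⟨δ, hδ⟩ (π v)
    change t (δ (π v)) = A.e ⟨δ, hδ⟩ (π v) ^ m' * t (π v) at h2
    change h ((γ : V ≃ᵃ[ℂ] V) v) * L.e γ v ^ m = A.e ⟨δ, hδ⟩ (π v) * h v at h1
    change t (π ((γ : V ≃ᵃ[ℂ] V) v)) * (h ((γ : V ≃ᵃ[ℂ] V) v) ^ m')⁻¹
      = L.e γ v ^ (m * m') * (t (π v) * (h v ^ m')⁻¹)
    have h3 := hne v
    have h4 := hne ((γ : V ≃ᵃ[ℂ] V) v)
    rw [← hδγ, h2, pow_mul]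
    have h5 : (h ((γ : V ≃ᵃ[ℂ] V) v)) ^ m' * (L.e γ v ^ m) ^ m'
        = A.e ⟨δ, hδ⟩ (π v) ^ m' * h v ^ m' := by
      rw [← mul_pow, h1, mul_pow]
    have h3' : h v ^ m' ≠ 0 := pow_ne_zero _ h3
    have h4' : h ((γ : V ≃ᵃ[ℂ] V) v) ^ m' ≠ 0 := pow_ne_zero _ h4
    field_simp
    linear_combination (-(t (π v))) * h5

omit [FiniteDimensional ℂ V] in
theorem chern_pow (hc : IsChernForm L H) (m : ℕ) :
    IsChernForm (L.pow m) (fun v w => (m : ℂ) * H v w) := by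
  obtain ⟨hH, F, hF, hLF⟩ := hc
  refine ⟨⟨fun u v w => ?_, fun a v w => ?_, fun v w => ?_⟩, fun v => (m : ℂ) * F v,
    hF.const_mul _, fun γ v => ?_⟩
  · rw [hH.add_left, mul_add]
  · rw [hH.smul_left]; ring
  · rw [map_mul, ← hH.symm, Complex.conj_natCast]
  · have h1 : ∀ z : ℂ, ((m : ℂ) * z).re = (m : ℝ) * z.re := by
      intro z
      have : (m : ℂ) = ((m : ℝ) : ℂ) := by push_cast; rfl
      rw [this, Complex.re_ofReal_mul]
    change ‖L.e γ v ^ m‖ ^ 2 = _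
    rw [norm_pow, ← pow_mul, mul_comm m 2, pow_mul, hLF, ← Real.exp_nat_mul, h1, h1, h1, h1]
    congr 1
    ring

/-- Semiample line bundles are nef. -/
theorem nef_of_semiample (hΓ : IsTorusQuotient Γ) (hc : IsChernForm L H) (hs : Semiample L) :
    IsNefForm H := by
  obtain ⟨m, hm, hg⟩ := hs
  obtain ⟨s, hs, hs0⟩ := hg 0
  have h1 : IsPseudoEffective (L.pow m) := psef_of_section hs (fun h => hs0 (congrFun h 0))
  have h2 := nef_of_psef hΓ (chern_pow hc m) h1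
  intro v
  have h3 := h2 v
  have h4 : ((m : ℂ) * H v v).re = (m : ℝ) * (H v v).re := by
    have : (m : ℂ) = ((m : ℝ) : ℂ) := by push_cast; rfl
    rw [this, Complex.re_ofReal_mul]
  rw [h4] at h3
  have h5 : (0 : ℝ) < m := by exact_mod_cast hm
  exact nonneg_of_mul_nonneg_right h3 h5

/-- **Nef line bundles on torus quotients with `H^1(X, O_X) = 0` are semiample.** -/
theorem semiample_of_nef (hΓ : IsRegular Γ) (hc : IsChernForm L H) (hn : IsNefForm H) :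
    Semiample L := by
  have hc' := hc
  obtain ⟨hH, F, hF, hFe⟩ := hc
  have hpot : IsPot L H F := ⟨hF, hFe⟩
  let n := Module.finrank ℂ (V ⧸ ker hH)
  let e : (V ⧸ ker hH) ≃ₗ[ℂ] (Fin n → ℂ) := (Module.finBasis ℂ (V ⧸ ker hH)).equivFun
  let π : V →ₗ[ℂ] (Fin n → ℂ) := (e : (V ⧸ ker hH) →ₗ[ℂ] (Fin n → ℂ)) ∘ₗ (ker hH).mkQ
  have S : Sit Γ L H F π hH := by
    refine ⟨hΓ, hpot, hn, ?_, ?_⟩
    · exact e.surjective.comp (ker hH).mkQ_surjective
    · intro v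
      change e ((ker hH).mkQ v) = 0 ↔ v ∈ ker hH
      rw [LinearEquiv.map_eq_zero_iff, Submodule.mkQ_apply, Submodule.Quotient.mk_eq_zero]
  refine semiample_of_induces S.base ?_ S.induces
  intro γ hγ
  refine exists_Del π S.surj ?_ γ hγ
  intro γ hγ v hv
  rw [S.ker_iff] at hv ⊢
  exact S.pres γ hγ v hv

/-- The equivalences. -/
theorem main (hΓ : IsRegular Γ) (hc : IsChernForm L H) :
    (IsPseudoEffective L ↔ IsNefForm H) ∧ (IsNefForm H ↔ Semiample L) :=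
  ⟨psef_iff_nef hΓ.torus hc, semiample_of_nef hΓ hc, nef_of_semiample hΓ.torus hc⟩

end Pool.Agent.U292.SA
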